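import Pool.Agent.H17.VS.TargetsF
import Pool.Agent.H92.VG.VD

/-!
# MP_70ba79_ag: row DZV of the board `vs_modules`: degrees, regularity, constants
-/

set_option autoImplicit false

namespace Pool.Agent.H70.VS

open MvPolynomial SC Pool.Agent.H27.LV Pool.Agent.H17.VG Pool.Agent.H17.CI Pool.Agent.H17.VS
open Pool.Agent.H92.VG (ge_form)

theorem pf_DZV : T_DZV := by
  intro k K _ _ _ _ _ _ htr n ι _ e c μ z x hx hz
  have hx0 : x 0 = 1 := by rw [hx]; rfl
  have hxs : ∀ a : Fin n, x a.succ = z (Sum.inl a) := fun a => by rw [hx]; rfl
  obtain ⟨u, hu⟩ : ∃ u : ι → K, u = fun i => eval x (upT K (frmT c) i) := ⟨_, rfl⟩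
  have hui : ∀ i, eval x (upT K (frmT c) i) = u i := fun i => by rw [hu]
  simp only [hui] at hz ⊢
  have hu0 : ∀ i, μ i = 0 → u i ≠ 0 := fun i hi h0 => by
    have := (hz i).1 hi
    rw [h0, mul_zero] at this
    exact zero_ne_one this
  have hinv : ∀ i, μ i = 0 → z (Sum.inr i) = (u i)⁻¹ := fun i hi =>
    eq_inv_of_mul_eq_one_left ((hz i).1 hi)
  have huge : ∀ (v : DV k K) i, ge v (-(((e i + 1 : ℕ) : ℤ) * poleOrder v x)) (u i) := by
    intro v i
    rw [← hui]
    exact ge_form htr (frm_homog fun M => c ⟨i, M⟩) x v
  have huord : ∀ (v : DV k K) i, u i ≠ 0 →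
      0 ≤ v.ord (u i) + ((e i + 1 : ℕ) : ℤ) * poleOrder v x := by
    intro v i hi
    have h1 := (huge v i).resolve_left hi
    linarith
  have hpow : ∀ (v : DV k K) i, μ i ≠ 0 → (μ i : ℤ) * v.ord (z (Sum.inr i)) = v.ord (u i) := by
    intro v i hi
    rw [← (hz i).2 hi, v.ord_pow]
  refine ⟨?_, ?_, ?_, ?_⟩
  · -- the degree of `(1, y)`
    unfold deg
    refine finsum_congr fun v => le_antisymm ?_ ?_
    · refine poleOrder_le v _ _ fun a => ?_
      have h := npole_le v x a.succ
      rw [hxs] at h
      exact h
    · refine poleOrder_le v _ _ fun j => ?_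
      refine Fin.cases ?_ (fun a => ?_) j
      · rw [hx0, v.ord_one]
        simp
      · rw [hxs]
        exact npole_le v (fun a => z (Sum.inl a)) a
  · -- the degree
    obtain ⟨t, ht⟩ : ∃ t : ι → DV k K → ℤ, t = fun i v => (if μ i = 0 then v.ord (u i) else 0) +
        ((e i + 1 : ℕ) : ℤ) * poleOrder v x := ⟨_, rfl⟩
    have hti : ∀ i v, t i v = (if μ i = 0 then v.ord (u i) else 0) +
        ((e i + 1 : ℕ) : ℤ) * poleOrder v x := fun i v => by rw [ht]
    have ht0 : ∀ i v, 0 ≤ t i v := by
      intro i v
      rw [hti]
      split_ifs with h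
      · exact huord v i (hu0 i h)
      · positivity
    have hpole : ∀ v : DV k K, (poleOrder v z : ℤ) ≤ poleOrder v x + ∑ i, t i v := by
      intro v
      obtain ⟨s, hs⟩ : ∃ s : ℤ, s = ∑ i, t i v := ⟨_, rfl⟩
      have hs0 : 0 ≤ s := by
        rw [hs]
        exact Finset.sum_nonneg fun i _ => ht0 i v
      rw [← hs]
      have h2 := poleOrder_le v z ((poleOrder v x : ℤ) + s).toNat (fun j => by
        rw [Int.toNat_of_nonneg (by positivity)]
        rcases j with a | i
        · have h3 := npole_le v x a.succ
          rw [hxs] at h3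
          linarith
        · have h3 : t i v ≤ s := by
            rw [hs]
            exact Finset.single_le_sum (f := fun i => t i v) (fun i _ => ht0 i v)
              (Finset.mem_univ i)
          have h5 : (0 : ℤ) ≤ ((e i + 1 : ℕ) : ℤ) * poleOrder v x := by positivity
          have h6 : (0 : ℤ) ≤ poleOrder v x := by positivity
          rw [hti] at h3
          by_cases hi : μ i = 0
          · rw [if_pos hi] at h3
            rw [hinv i hi, v.ord_inv]
            linarith
          · rw [if_neg hi] at h3
            have h7 := hpow v i hi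
            by_cases h0 : u i = 0
            · rw [h0, v.ord_zero] at h7
              have h8 : v.ord (z (Sum.inr i)) = 0 := by
                rcases mul_eq_zero.1 h7 with h | h
                · exact absurd (by exact_mod_cast h) hi
                · exact h
              rw [h8]
              linarith
            · have h8 := huord v i h0
              rcases le_or_gt 0 (v.ord (z (Sum.inr i))) with h9 | h9
              · linarith
              · have h10 : (1 : ℤ) ≤ μ i := by exact_mod_cast Nat.one_le_iff_ne_zero.2 hi
                nlinarith)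
      have h3 : (0 : ℤ) ≤ (poleOrder v x : ℤ) + s := by positivity
      have h4 : (poleOrder v z : ℤ) ≤ ((((poleOrder v x : ℤ) + s).toNat : ℕ) : ℤ) := by
        exact_mod_cast h2
      rw [Int.toNat_of_nonneg h3] at h4
      exact h4
    have f3 : (Function.support fun v : DV k K => (poleOrder v x : ℤ)).Finite := by
      refine (pfi k K htr _ x).subset fun v hv => ?_
      simpa using hv
    have f3' : (Function.support fun v : DV k K => (poleOrder v z : ℤ)).Finite := by
      refine (pfi k K htr _ z).subset fun v hv => ?_
      simpa using hv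
    have f4 : ∀ m : ℤ, (Function.support fun v : DV k K => m * (poleOrder v x : ℤ)).Finite := by
      intro m
      refine f3.subset fun v hv => ?_
      exact right_ne_zero_of_mul hv
    have f5a : ∀ i, (Function.support fun v : DV k K =>
        (if μ i = 0 then v.ord (u i) else 0)).Finite := by
      intro i
      by_cases hi : μ i = 0
      · simp only [if_pos hi]
        exact (pfm k K htr (u i)).1
      · simp only [if_neg hi]
        rw [Function.support_fun_zero]
        exact Set.finite_empty
    have f5 : ∀ i, (Function.support fun v : DV k K => t i v).Finite := by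
      intro i
      have : (fun v : DV k K => t i v) = fun v => (if μ i = 0 then v.ord (u i) else 0) +
          ((e i + 1 : ℕ) : ℤ) * poleOrder v x := funext fun v => hti i v
      rw [this]
      exact ((f5a i).union (f4 _)).subset (Function.support_add _ _)
    have f6 : (Function.support fun v : DV k K => ∑ i, t i v).Finite := by
      refine (Set.finite_iUnion f5).subset fun v hv => ?_
      obtain ⟨i, _, hi⟩ := Finset.exists_ne_zero_of_sum_ne_zero hv
      exact Set.mem_iUnion.2 ⟨i, hi⟩
    have f7 : (Function.support fun v : DV k K => (poleOrder v x : ℤ) + ∑ i, t i v).Finite :=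
      (f3.union f6).subset (Function.support_add _ _)
    have h1 : 0 ≤ ∑ᶠ v : DV k K, ((poleOrder v x : ℤ) + ∑ i, t i v - poleOrder v z) := by
      refine finsum_nonneg fun v => ?_
      have := hpole v
      linarith
    rw [finsum_sub_distrib f7 f3', finsum_add_distrib f3 f6,
      finsum_sum_comm _ _ (fun i _ => f5 i), ← cast_deg htr, ← cast_deg htr] at h1
    have h2 : ∀ i, ∑ᶠ v : DV k K, t i v = ((e i + 1 : ℕ) : ℤ) * deg k x := by
      intro i
      have : (fun v : DV k K => t i v) = fun v => (if μ i = 0 then v.ord (u i) else 0) +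
          ((e i + 1 : ℕ) : ℤ) * poleOrder v x := funext fun v => hti i v
      rw [this, finsum_add_distrib (f5a i) (f4 _)]
      have h0 : ∑ᶠ v : DV k K, (if μ i = 0 then v.ord (u i) else 0) = 0 := by
        by_cases hi : μ i = 0
        · simp only [if_pos hi]
          exact (pfm k K htr (u i)).2
        · simp only [if_neg hi, finsum_zero]
      rw [h0, zero_add, cast_deg htr x]
      exact (mul_finsum _ _).symm
    simp only [h2] at h1
    rw [← Finset.sum_mul] at h1
    have h6 : (deg k z : ℤ) ≤ (((1 + ∑ i, (e i + 1)) * deg k x : ℕ) : ℤ) := by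
      push_cast at h1 ⊢
      linarith
    exact_mod_cast h6
  · rintro ⟨j, hj⟩
    by_contra hc
    push Not at hc
    apply hj
    choose y hy using hc
    have hxy : x = fun i => algebraMap k K (y i) := funext fun i => (hy i).symm
    rcases j with a | i
    · exact ⟨y a.succ, by rw [hy, hxs]⟩
    · have hue : u i = algebraMap k K (eval y (frmT c i)) := by
        rw [← hui, hxy]
        unfold upT up
        exact eval_evk_map (K := K) y (frmT c i)
      by_cases hi : μ i = 0
      · refine ⟨(eval y (frmT c i))⁻¹, ?_⟩
        rw [hinv i hi, map_inv₀, hue]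
      · have hint : IsIntegral k (z (Sum.inr i)) := by
          refine IsIntegral.of_pow (Nat.pos_of_ne_zero hi) ?_
          rw [(hz i).2 hi, hue]
          exact isIntegral_algebraMap
        exact minpoly.mem_range_of_degree_eq_one k _
          (IsAlgClosed.degree_eq_one_of_irreducible k (minpoly.irreducible hint))
  · intro v hv
    have hp : poleOrder v x = 0 := by
      rw [← Nat.le_zero]
      refine poleOrder_le v x 0 fun j => ?_
      simp only [Nat.cast_zero, neg_zero]
      refine Fin.cases ?_ (fun a => ?_) j
      · rw [hx0, v.ord_one]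
      · rw [hxs]
        exact hv _
    refine ⟨hp, fun i hi => ?_⟩
    have h1 := huord v i hi
    rw [hp] at h1
    simp only [Nat.cast_zero, mul_zero, add_zero] at h1
    have h2 := hv (Sum.inr i)
    refine ⟨fun h0 => ?_, fun hne => ?_⟩
    · rw [hinv i h0, v.ord_inv] at h2
      omega
    · by_cases h0 : μ i = 0
      · rw [h0]
        exact h1
      · have h3 := hpow v i h0
        have h4 : 1 ≤ v.ord (z (Sum.inr i)) := by
          rcases h2.lt_or_eq with h | h
          · omega
          · rw [← h, mul_zero] at h3
            exact absurd h3.symm hne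
        have h5 : (0 : ℤ) ≤ μ i := by positivity
        nlinarith

end Pool.Agent.H70.VS
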